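import Pool.Agent.Run7.h992.OneSys.F

set_option autoImplicit false
set_option linter.unusedSimpArgs false

/-!
# Piece E of MP_14cec7_gt (leader helper775): every point is moved into the strip
-/

open UpperHalfPlane MatrixGroups Pointwise goldenRatio
open Pool.Agent.Run7.h775.OneSys

namespace Pool.Agent.Run7.h992.OneSys

noncomputable section

/-- `|cot|` of the angle at the axis of `A` -/
def tq (z : ℍ) : ℝ := |z.re| / z.im

/-- numerator of the real part of `g • z` -/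
def Gf (g : SL(2, ℝ)) (z : ℍ) : ℝ :=
  (g 0 0 * z.re + g 0 1) * (g 1 0 * z.re + g 1 1) + g 0 0 * g 1 0 * z.im ^ 2

theorem tq_smul (g : SL(2, ℝ)) (z : ℍ) : tq (g • z) = |Gf g z| / z.im := by
  have hp := den_pos g z
  have h1 := re_smul_eq g z
  have h2 := im_smul_eq g z
  set D := (g 1 0 * z.re + g 1 1) ^ 2 + (g 1 0 * z.im) ^ 2 with hD
  have hz := z.im_pos
  have h3 : (g • z).re = Gf g z / D := by rw [eq_div_iff hp.ne']; exact h1
  have h4 : (g • z).im = z.im / D := by rw [eq_div_iff hp.ne']; exact h2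
  unfold tq
  rw [h3, h4, abs_div, abs_of_pos hp]
  field_simp

theorem tq_A (k : ℤ) (z : ℍ) : tq (Am ^ k • z) = tq z := by
  obtain ⟨h1, h2⟩ := Am_zpow k z
  have hp := zpow_pos mu_pos k
  unfold tq
  rw [h1, h2, abs_mul, abs_of_pos hp]
  have hz := z.im_pos
  field_simp

theorem phinv : ph * (ph - 1) = 1 := by linear_combination phsq

theorem Gf_B_add (z : ℍ) : Gf Bm z + z.re = 6 * ph / 5 * qb 0 z := by
  have b00 : Bm 0 0 = (3 * ph + 6) / 5 := rfl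
  have b01 : Bm 0 1 = (4 * ph - 2) / 5 := rfl
  have b10 : Bm 1 0 = (4 * ph - 2) / 5 := rfl
  have b11 : Bm 1 1 = (9 - 3 * ph) / 5 := rfl
  unfold Gf qb q
  simp only [zero_add]
  rw [b00, b01, b10, b11, bv0, bv1]
  have h3 : ph ^ 3 = 2 * ph + 1 := by linear_combination (ph + 1) * phsq
  ring_nf
  simp only [h3, phsq]
  ring

theorem Gf_B_sub (z : ℍ) : 0 < Gf Bm z - z.re := by
  have b00 : Bm 0 0 = (3 * ph + 6) / 5 := rfl
  have b01 : Bm 0 1 = (4 * ph - 2) / 5 := rfl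
  have b10 : Bm 1 0 = (4 * ph - 2) / 5 := rfl
  have b11 : Bm 1 1 = (9 - 3 * ph) / 5 := rfl
  have e : Gf Bm z - z.re = (6 * ph * (z.re ^ 2 + z.im ^ 2) + 8 * z.re + 6 * (ph - 1)) / 5 := by
    unfold Gf
    rw [b00, b01, b10, b11]
    have h3 : ph ^ 3 = 2 * ph + 1 := by linear_combination (ph + 1) * phsq
    ring_nf
    simp only [h3, phsq]
    ring
  rw [e]
  have hz := z.im_pos
  have h1 := ph1
  have h2 := phsq
  have : 0 < 6 * ph * (6 * ph * (z.re ^ 2 + z.im ^ 2) + 8 * z.re + 6 * (ph - 1)) := by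
    have : 6 * ph * (6 * ph * (z.re ^ 2 + z.im ^ 2) + 8 * z.re + 6 * (ph - 1)) =
        (6 * ph * z.re + 4) ^ 2 + 36 * ph ^ 2 * z.im ^ 2 + 20 := by
      linear_combination 36 * h2
    rw [this]
    positivity
  have h6 : (0 : ℝ) < 6 * ph := by linarith
  have := (mul_pos_iff_of_pos_left h6).1 this
  linarith

theorem Gf_Bi_add (z : ℍ) : Gf Bm⁻¹ z + z.re = -(6 * (ph - 1) / 5 * qt 0 z) := by
  have b00 : Bm 0 0 = (3 * ph + 6) / 5 := rfl
  have b01 : Bm 0 1 = (4 * ph - 2) / 5 := rfl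
  have b10 : Bm 1 0 = (4 * ph - 2) / 5 := rfl
  have b11 : Bm 1 1 = (9 - 3 * ph) / 5 := rfl
  unfold Gf qt q
  simp only [zero_add]
  rw [inv00, inv01, inv10, inv11, b00, b01, b10, b11, tv0, tv1]
  have h3 : ph ^ 3 = 2 * ph + 1 := by linear_combination (ph + 1) * phsq
  ring_nf
  simp only [h3, phsq]
  ring

theorem Gf_Bi_sub (z : ℍ) : Gf Bm⁻¹ z - z.re < 0 := by
  have b00 : Bm 0 0 = (3 * ph + 6) / 5 := rfl
  have b01 : Bm 0 1 = (4 * ph - 2) / 5 := rfl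
  have b10 : Bm 1 0 = (4 * ph - 2) / 5 := rfl
  have b11 : Bm 1 1 = (9 - 3 * ph) / 5 := rfl
  have e : Gf Bm⁻¹ z - z.re =
      -(6 * (ph - 1) * (z.re ^ 2 + z.im ^ 2) - 8 * z.re + 6 * ph) / 5 := by
    unfold Gf
    rw [inv00, inv01, inv10, inv11, b00, b01, b10, b11]
    have h3 : ph ^ 3 = 2 * ph + 1 := by linear_combination (ph + 1) * phsq
    ring_nf
    simp only [h3, phsq]
    ring
  rw [e]
  have hz := z.im_pos
  have h1 := ph1
  have h2 := phsq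
  have : 0 < 6 * (ph - 1) * (6 * (ph - 1) * (z.re ^ 2 + z.im ^ 2) - 8 * z.re + 6 * ph) := by
    have : 6 * (ph - 1) * (6 * (ph - 1) * (z.re ^ 2 + z.im ^ 2) - 8 * z.re + 6 * ph) =
        (6 * (ph - 1) * z.re - 4) ^ 2 + 36 * (ph - 1) ^ 2 * z.im ^ 2 + 20 := by
      linear_combination 36 * h2
    rw [this]
    positivity
  have h6 : (0 : ℝ) < 6 * (ph - 1) := by linarith
  have := (mul_pos_iff_of_pos_left h6).1 this
  linarith

theorem qb_of_tq {z : ℍ} (h : tq z ≤ tq (Bm • z)) : 0 ≤ qb 0 z := by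
  have hz := z.im_pos
  rw [tq_smul] at h
  unfold tq at h
  rw [div_le_div_iff_of_pos_right hz] at h
  have h1 := Gf_B_add z
  have h2 := Gf_B_sub z
  have h3 : z.re ^ 2 ≤ (Gf Bm z) ^ 2 := sq_le_sq.2 h
  have h4 : 0 ≤ (Gf Bm z - z.re) * (Gf Bm z + z.re) := by nlinarith
  have h5 : 0 ≤ Gf Bm z + z.re := (mul_nonneg_iff_of_pos_left h2).1 h4
  rw [h1] at h5
  have h6 : (0 : ℝ) < 6 * ph / 5 := by have := ph1; positivity
  exact (mul_nonneg_iff_of_pos_left h6).1 h5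

theorem qt_of_tq {z : ℍ} (h : tq z ≤ tq (Bm⁻¹ • z)) : 0 ≤ qt 0 z := by
  have hz := z.im_pos
  rw [tq_smul] at h
  unfold tq at h
  rw [div_le_div_iff_of_pos_right hz] at h
  have h1 := Gf_Bi_add z
  have h2 := Gf_Bi_sub z
  have h3 : z.re ^ 2 ≤ (Gf Bm⁻¹ z) ^ 2 := sq_le_sq.2 h
  have h4 : 0 ≤ (z.re - Gf Bm⁻¹ z) * (-(Gf Bm⁻¹ z + z.re)) := by nlinarith
  have h5 : 0 ≤ -(Gf Bm⁻¹ z + z.re) := (mul_nonneg_iff_of_pos_left (by linarith)).1 h4
  rw [h1, neg_neg] at h5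
  have h6 : (0 : ℝ) < 6 * (ph - 1) / 5 := by have := ph1; linarith
  exact (mul_nonneg_iff_of_pos_left h6).1 h5

/-! ### Integrality -/

/-- the integral form `(X² - XY - Y²) ∘ g` -/
def tr (g : SL(2, ℤ)) : ℤ × ℤ × ℤ :=
  (g 0 0 ^ 2 - g 0 0 * g 1 0 - g 1 0 ^ 2,
    2 * g 0 0 * g 0 1 - (g 0 0 * g 1 1 + g 0 1 * g 1 0) - 2 * g 1 0 * g 1 1,
    g 0 1 ^ 2 - g 0 1 * g 1 1 - g 1 1 ^ 2)

theorem tr_disc (g : SL(2, ℤ)) : (tr g).2.1 ^ 2 - 4 * (tr g).1 * (tr g).2.2 = 5 := by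
  have hd : g 0 0 * g 1 1 - g 0 1 * g 1 0 = 1 := by
    have := g.det_coe
    rwa [Matrix.det_fin_two] at this
  unfold tr
  simp only
  linear_combination 5 * (g 0 0 * g 1 1 - g 0 1 * g 1 0 + 1) * hd

def al (z : ℍ) : ℝ := z.re ^ 2 + z.im ^ 2 + 2 * ph * z.re + ph ^ 2
def be (z : ℍ) : ℝ := -ph * (z.re ^ 2 + z.im ^ 2) + (1 - ph ^ 2) * z.re + ph
def ga (z : ℍ) : ℝ := ph ^ 2 * (z.re ^ 2 + z.im ^ 2) - 2 * ph * z.re + 1

theorem ga_pos (z : ℍ) : 0 < ga z := by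
  have hz := z.im_pos
  have h1 := ph1
  have : ga z = (ph * z.re - 1) ^ 2 + ph ^ 2 * z.im ^ 2 := by unfold ga; ring
  rw [this]; positivity

theorem al_pos (z : ℍ) : 0 < al z := by
  have hz := z.im_pos
  have : al z = (z.re + ph) ^ 2 + z.im ^ 2 := by unfold al; ring
  rw [this]; positivity

theorem del_pos (z : ℍ) : 0 < al z * ga z - be z ^ 2 := by
  have hz := z.im_pos
  have : al z * ga z - be z ^ 2 = (1 + ph ^ 2) ^ 2 * z.im ^ 2 := by unfold al ga be; ring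
  rw [this]; positivity

def Lf (z : ℍ) (t : ℤ × ℤ × ℤ) : ℝ := t.1 * al z + t.2.1 * be z + t.2.2 * ga z

theorem Gf_rep (w : FreeGroup Bool) (z : ℍ) :
    (1 + ph ^ 2) ^ 2 * Gf (rep w) z = ph * Lf z (tr (repZ w)) := by
  have h := rep_Mr w
  have e00 := congrFun (congrFun h 0) 0
  have e01 := congrFun (congrFun h 0) 1
  have e10 := congrFun (congrFun h 1) 0
  have e11 := congrFun (congrFun h 1) 1
  simp only [Mr, mp, Matrix.mul_apply, Fin.sum_univ_two, Matrix.map_apply, Matrix.of_apply,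
    Matrix.cons_val', Matrix.cons_val_zero, Matrix.cons_val_one, Matrix.cons_val_fin_one] at e00 e01 e10 e11
  set a := rep w 0 0
  set b := rep w 0 1
  set c := rep w 1 0
  set d := rep w 1 1
  set p : ℝ := ((repZ w 0 0 : ℤ) : ℝ)
  set q' : ℝ := ((repZ w 0 1 : ℤ) : ℝ)
  set r : ℝ := ((repZ w 1 0 : ℤ) : ℝ)
  set s : ℝ := ((repZ w 1 1 : ℤ) : ℝ)
  have hA : ph * ((tr (repZ w)).1 : ℝ) = (a * 1 + b * ph) * (c * 1 + d * ph) := by
    rw [e00, e10]
    unfold tr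
    push_cast
    change ph * (p ^ 2 - p * r - r ^ 2) = _
    linear_combination (p * r) * phsq
  have hB : ph * ((tr (repZ w)).2.1 : ℝ) =
      (a * 1 + b * ph) * (c * -ph + d * 1) + (a * -ph + b * 1) * (c * 1 + d * ph) := by
    rw [e00, e10, e01, e11]
    unfold tr
    push_cast
    change ph * (2 * p * q' - (p * s + q' * r) - 2 * r * s) = _
    linear_combination (p * s + q' * r) * phsq
  have hC : ph * ((tr (repZ w)).2.2 : ℝ) = (a * -ph + b * 1) * (c * -ph + d * 1) := by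
    rw [e01, e11]
    unfold tr
    push_cast
    change ph * (q' ^ 2 - q' * s - s ^ 2) = _
    linear_combination (q' * s) * phsq
  unfold Lf
  have : ph * (((tr (repZ w)).1 : ℝ) * al z + ((tr (repZ w)).2.1 : ℝ) * be z +
      ((tr (repZ w)).2.2 : ℝ) * ga z) = (ph * ((tr (repZ w)).1 : ℝ)) * al z +
      (ph * ((tr (repZ w)).2.1 : ℝ)) * be z + (ph * ((tr (repZ w)).2.2 : ℝ)) * ga z := by ring
  rw [this, hA, hB, hC]
  unfold Gf al be ga
  ring

theorem tq_rep (w : FreeGroup Bool) (z : ℍ) :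
    tq (rep w • z) = ph / ((1 + ph ^ 2) ^ 2 * z.im) * |Lf z (tr (repZ w))| := by
  have hz := z.im_pos
  have h1 := ph1
  have h := Gf_rep w z
  have h2 : Gf (rep w) z = ph * Lf z (tr (repZ w)) / (1 + ph ^ 2) ^ 2 := by
    rw [eq_div_iff (by positivity)]; linarith
  rw [tq_smul, h2, abs_div, abs_mul, abs_of_pos (by linarith : (0 : ℝ) < ph),
    abs_of_pos (by positivity : (0 : ℝ) < (1 + ph ^ 2) ^ 2)]
  field_simp

theorem int_abs_le_sq (a : ℤ) : |(a : ℝ)| ≤ (a : ℝ) ^ 2 := by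
  have h : |a| ≤ a ^ 2 := by
    rcases eq_or_ne a 0 with rfl | h0
    · simp
    · have h1 : 1 ≤ |a| := Int.one_le_abs h0
      calc |a| = |a| * 1 := by ring
        _ ≤ |a| * |a| := by nlinarith
        _ = a ^ 2 := by rw [abs_mul_abs_self]; ring
  exact_mod_cast h

theorem fin_forms (z : ℍ) (R : ℝ) :
    {t : ℤ × ℤ × ℤ | t.2.1 ^ 2 - 4 * t.1 * t.2.2 = 5 ∧ |Lf z t| ≤ R}.Finite := by
  have hga := ga_pos z
  have hal := al_pos z
  have hde := del_pos z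
  set δ := al z * ga z - be z ^ 2 with hδ
  set s := al z + ga z with hs
  have hs0 : 0 < s := by linarith
  set K0 : ℝ := (5 * ga z * s + 2 * R ^ 2 * s ^ 2 / δ) / δ with hK0
  set K1 : ℝ := (R + K0 * al z + K0 * |be z|) / ga z with hK1
  obtain ⟨N, hN⟩ := exists_nat_ge (max K0 K1)
  have hN0 : K0 ≤ N := (le_max_left _ _).trans hN
  have hN1 : K1 ≤ N := (le_max_right _ _).trans hN
  refine Set.Finite.subset ((Set.finite_Icc (-(N : ℤ)) N).prod
    ((Set.finite_Icc (-(N : ℤ)) N).prod (Set.finite_Icc (-(N : ℤ)) N))) ?_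
  rintro ⟨A, B, C⟩ ⟨hd, hL⟩
  simp only at hd
  have hd' : (B : ℝ) ^ 2 - 4 * A * C = 5 := by exact_mod_cast hd
  set L := Lf z (A, B, C) with hLdef
  have hL2 : L = A * al z + B * be z + C * ga z := rfl
  have key : ga z * (B : ℝ) ^ 2 + 4 * be z * A * B + 4 * al z * (A : ℝ) ^ 2 =
      5 * ga z + 4 * A * L := by
    rw [hL2]; linear_combination (ga z) * hd'
  have key2 : δ * ((B : ℝ) ^ 2 + 4 * (A : ℝ) ^ 2) ≤ s * (5 * ga z + 4 * A * L) := by
    rw [← key]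
    have : s * (ga z * (B : ℝ) ^ 2 + 4 * be z * A * B + 4 * al z * (A : ℝ) ^ 2) -
        δ * ((B : ℝ) ^ 2 + 4 * (A : ℝ) ^ 2) =
        (ga z * B + 2 * be z * A) ^ 2 + (be z * B + 2 * al z * A) ^ 2 := by
      rw [hs, hδ]; ring
    nlinarith [sq_nonneg (ga z * B + 2 * be z * A), sq_nonneg (be z * B + 2 * al z * A)]
  have hR0 : 0 ≤ R := (abs_nonneg _).trans hL
  have hL3 : L ^ 2 ≤ R ^ 2 := by
    rw [← sq_abs L]; exact pow_le_pow_left₀ (abs_nonneg _) hL 2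
  have key3 : 4 * A * L * s ≤ 2 * δ * (A : ℝ) ^ 2 + 2 * R ^ 2 * s ^ 2 / δ := by
    have h1 : 0 ≤ 2 * (δ * A - L * s) ^ 2 / δ := by positivity
    have h2 : 2 * (δ * A - L * s) ^ 2 / δ =
        2 * δ * (A : ℝ) ^ 2 - 4 * A * L * s + 2 * L ^ 2 * s ^ 2 / δ := by
      field_simp; ring
    have h3 : 2 * L ^ 2 * s ^ 2 / δ ≤ 2 * R ^ 2 * s ^ 2 / δ := by
      apply div_le_div_of_nonneg_right _ hde.le
      nlinarith [sq_nonneg s]
    linarith
  have key4 : δ * ((B : ℝ) ^ 2 + 2 * (A : ℝ) ^ 2) ≤ δ * K0 := by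
    have : δ * K0 = 5 * ga z * s + 2 * R ^ 2 * s ^ 2 / δ := by
      rw [hK0]; field_simp
    rw [this]
    nlinarith
  have key5 : (B : ℝ) ^ 2 + 2 * (A : ℝ) ^ 2 ≤ K0 := le_of_mul_le_mul_left key4 hde
  have hA := int_abs_le_sq A
  have hB := int_abs_le_sq B
  have hA2 : |(A : ℝ)| ≤ K0 := by nlinarith [sq_nonneg (A : ℝ), sq_nonneg (B : ℝ)]
  have hB2 : |(B : ℝ)| ≤ K0 := by nlinarith [sq_nonneg (A : ℝ), sq_nonneg (B : ℝ)]
  have hC2 : |(C : ℝ)| ≤ K1 := by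
    rw [hK1, le_div_iff₀ hga]
    have h1 : (C : ℝ) * ga z = L - A * al z - B * be z := by rw [hL2]; ring
    have h2 : |(C : ℝ)| * ga z = |(C : ℝ) * ga z| := by rw [abs_mul, abs_of_pos hga]
    rw [h2, h1]
    have h3 : |L - A * al z - B * be z| ≤ |L| + |(A : ℝ) * al z| + |(B : ℝ) * be z| := by
      calc |L - A * al z - B * be z| ≤ |L - A * al z| + |(B : ℝ) * be z| := abs_sub _ _
        _ ≤ _ := by gcongr; exact abs_sub _ _
    have h4 : |(A : ℝ) * al z| ≤ K0 * al z := by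
      rw [abs_mul, abs_of_pos hal]; exact mul_le_mul_of_nonneg_right hA2 hal.le
    have h5 : |(B : ℝ) * be z| ≤ K0 * |be z| := by
      rw [abs_mul]; exact mul_le_mul_of_nonneg_right hB2 (abs_nonneg _)
    linarith
  have fin : ∀ D : ℤ, |(D : ℝ)| ≤ N → D ∈ Set.Icc (-(N : ℤ)) N := by
    intro D hD
    have h1 : |D| ≤ (N : ℤ) := by exact_mod_cast hD
    exact abs_le.1 h1
  exact ⟨fin A (hA2.trans hN0), fin B (hB2.trans hN0), fin C (hC2.trans hN1)⟩

/-- a point at which `tq` is minimal on its orbit -/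
def Mn (z : ℍ) : Prop := ∀ v : FreeGroup Bool, tq z ≤ tq (rep v • z)

theorem exists_Mn (z : ℍ) : ∃ w : FreeGroup Bool, Mn (rep w • z) := by
  set V : Set (ℤ × ℤ × ℤ) := {t | ∃ w : FreeGroup Bool, t = tr (repZ w)} ∩
    {t | |Lf z t| ≤ |Lf z (tr (repZ 1))|} with hV
  have hfin : V.Finite := by
    refine (fin_forms z (|Lf z (tr (repZ 1))|)).subset ?_
    rintro t ⟨⟨w, rfl⟩, h2⟩
    exact ⟨tr_disc _, h2⟩
  have hne : V.Nonempty := ⟨tr (repZ 1), ⟨1, rfl⟩, le_refl (|Lf z (tr (repZ 1))|)⟩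
  obtain ⟨t, ⟨⟨w0, rfl⟩, ht⟩, hmin⟩ := Set.exists_min_image V (fun t => |Lf z t|) hfin hne
  have hall : ∀ w : FreeGroup Bool, |Lf z (tr (repZ w0))| ≤ |Lf z (tr (repZ w))| := by
    intro w
    by_cases h : |Lf z (tr (repZ w))| ≤ |Lf z (tr (repZ 1))|
    · exact hmin _ ⟨⟨w, rfl⟩, h⟩
    · exact ht.trans (not_le.1 h).le
  refine ⟨w0, fun v => ?_⟩
  rw [smul_smul, ← map_mul, tq_rep, tq_rep]
  have hz := z.im_pos
  have h1 := ph1
  exact mul_le_mul_of_nonneg_left (hall _) (by positivity)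

theorem Mn.smul {z : ℍ} (h : Mn z) (v : FreeGroup Bool) (hv : tq (rep v • z) = tq z) :
    Mn (rep v • z) := by
  intro u
  rw [smul_smul, ← map_mul, hv]
  exact h _

theorem rep_gA_zpow (k : ℤ) : rep (gA ^ k) = Am ^ k := by rw [map_zpow, rep_A]

theorem Mn.A {z : ℍ} (h : Mn z) (k : ℤ) : Mn (Am ^ k • z) := by
  have := h.smul (gA ^ k) (by rw [rep_gA_zpow, tq_A])
  rwa [rep_gA_zpow] at this

theorem Mn_qb {z : ℍ} (h : Mn z) (k : ℤ) : 0 ≤ qb k z := by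
  have h1 := h.A (-k)
  have h2 : 0 ≤ qb 0 (Am ^ (-k) • z) := by
    apply qb_of_tq
    have := h1 gB
    rwa [rep_B] at this
  have h3 := qb_A k 0 (Am ^ (-k) • z)
  rw [zero_add, smul_smul, ← zpow_add, add_neg_cancel, zpow_zero, one_smul] at h3
  rw [h3]
  positivity

theorem Mn_qt {z : ℍ} (h : Mn z) (k : ℤ) : 0 ≤ qt k z := by
  have h1 := h.A (-k)
  have h2 : 0 ≤ qt 0 (Am ^ (-k) • z) := by
    apply qt_of_tq
    have := h1 gB⁻¹
    rwa [map_inv, rep_B] at this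
  have h3 := qt_A k 0 (Am ^ (-k) • z)
  rw [zero_add, smul_smul, ← zpow_add, add_neg_cancel, zpow_zero, one_smul] at h3
  rw [h3]
  positivity

theorem exhaust (z : ℍ) : ∃ w : FreeGroup Bool, rep w • z ∈ Wp := by
  obtain ⟨w0, h0⟩ := exists_Mn z
  by_cases hall : ∀ k, 0 < qb k (rep w0 • z)
  · exact ⟨w0, fun k => Mn_qt h0 k, hall⟩
  · push Not at hall
    obtain ⟨k, hk⟩ := hall
    have hk0 : qb k (rep w0 • z) = 0 := le_antisymm hk (Mn_qb h0 k)
    set z0 := rep w0 • z with hz0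
    set z1 := Am ^ (-k) • z0 with hz1
    have h1 : Mn z1 := h0.A (-k)
    have hq1 : qb 0 z1 = 0 := by
      have := qb_A (-k) k z0
      rw [hk0, mul_zero, add_neg_cancel] at this
      exact this
    have ht2 : tq (Bm • z1) = tq z1 := by
      have e := Gf_B_add z1
      rw [hq1, mul_zero] at e
      have e2 : Gf Bm z1 = -z1.re := by linarith
      rw [tq_smul, e2, abs_neg]
      rfl
    have h2 : Mn (Bm • z1) := by
      have := h1.smul gB (by rw [rep_B]; exact ht2)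
      rwa [rep_B] at this
    have hqt : qt 0 (Bm • z1) = 0 := by
      have e := qt_B z1
      rw [hq1, mul_zero] at e
      rcases mul_eq_zero.1 e with e | e
      · exact e
      · exact absurd e (den_pos Bm z1).ne'
    refine ⟨gB * gA ^ (-k) * w0, ?_⟩
    have e3 : rep (gB * gA ^ (-k) * w0) • z = Bm • z1 := by
      rw [map_mul, map_mul, rep_B, rep_gA_zpow, mul_smul, mul_smul]
    rw [e3]
    refine ⟨fun j => Mn_qt h2 j, fun j => ?_⟩
    rcases (Mn_qb h2 j).lt_or_eq with h | h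
    · exact h
    · exfalso
      have f1 := q_between (tv_mono (show (0 : ℤ) < 0 + 1 by norm_num)) hqt.le
      have f2 := q_between (bv_anti (show j < j + 1 by omega)) h.symm.le
      have f3 := tv_pos 0
      have f4 := bv_neg j
      linarith [f1.1, f2.2]

end

end Pool.Agent.Run7.h992.OneSys
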