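import Pool.Agent.Run7.h775.OneSys.Group

set_option autoImplicit false

/-!
# Piece F of MP_14cec7_gt (leader helper775): the arithmetic of the group
-/

open UpperHalfPlane MatrixGroups Pointwise goldenRatio

namespace Pool.Agent.Run7.h992.OneSys

noncomputable section

def AZ : SL(2, ℤ) := ⟨!![1, -1; -1, 2], by decide⟩
def BZ : SL(2, ℤ) := ⟨!![2, -1; -1, 1], by decide⟩
def repZ : FreeGroup Bool →* SL(2, ℤ) := FreeGroup.lift (fun b => if b then AZ else BZ)

def SZ : SL(2, ℤ) := ⟨!![0, -1; 1, 0], by decide⟩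
def TZ : SL(2, ℤ) := ⟨!![1, 1; 0, 1], by decide⟩

theorem gens : Subgroup.closure ({SZ, TZ} : Set SL(2, ℤ)) = ⊤ := by
  have h := SpecialLinearGroup.SL2Z_generators
  have hS : ModularGroup.S = SZ := rfl
  have hT : ModularGroup.T = TZ := rfl
  rw [← hS, ← hT]
  exact h

theorem AZ_mem : AZ ∈ repZ.range := ⟨FreeGroup.of true, by simp [repZ]⟩
theorem BZ_mem : BZ ∈ repZ.range := ⟨FreeGroup.of false, by simp [repZ]⟩

theorem c1 : TZ * AZ * TZ⁻¹ = BZ⁻¹ * AZ := by decide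
theorem c2 : TZ * BZ * TZ⁻¹ = AZ := by decide
theorem c3 : TZ⁻¹ * AZ * TZ = BZ := by decide
theorem c4 : TZ⁻¹ * BZ * TZ = BZ * AZ⁻¹ := by decide
theorem c5 : SZ * TZ ^ 3 = AZ * BZ⁻¹ := by decide
theorem c6 : TZ ^ 12 = AZ⁻¹ * BZ * AZ * BZ⁻¹ * AZ⁻¹ * BZ * AZ * BZ⁻¹ := by decide

theorem conj_T (w : FreeGroup Bool) : TZ * repZ w * TZ⁻¹ ∈ repZ.range := by
  have h : (MulAut.conj TZ).toMonoidHom.comp repZ =
      repZ.comp (FreeGroup.lift (fun b => if b then (FreeGroup.of false)⁻¹ * FreeGroup.of true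
        else FreeGroup.of true)) := by
    apply FreeGroup.ext_hom
    intro b
    cases b
    · simp [repZ, c2]
    · simp [repZ, c1]
  have h2 := DFunLike.congr_fun h w
  refine ⟨_, h2.symm.trans ?_⟩
  simp

theorem conj_T' (w : FreeGroup Bool) : TZ⁻¹ * repZ w * TZ ∈ repZ.range := by
  have h : (MulAut.conj TZ⁻¹).toMonoidHom.comp repZ =
      repZ.comp (FreeGroup.lift (fun b => if b then FreeGroup.of false
        else FreeGroup.of false * (FreeGroup.of true)⁻¹)) := by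
    apply FreeGroup.ext_hom
    intro b
    cases b
    · simp [repZ, c4]
    · simp [repZ, c3]
  have h2 := DFunLike.congr_fun h w
  refine ⟨_, h2.symm.trans ?_⟩
  simp

theorem T_norm : TZ ∈ Subgroup.normalizer (repZ.range : Set SL(2, ℤ)) := by
  rw [Subgroup.mem_normalizer_iff]
  intro h
  constructor
  · rintro ⟨w, rfl⟩
    exact conj_T w
  · rintro ⟨w, hw⟩
    have := conj_T' w
    rw [hw] at this
    convert this using 1
    group

theorem conj_zpow (j : ℤ) {h : SL(2, ℤ)} (hh : h ∈ repZ.range) :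
    TZ ^ j * h * (TZ ^ j)⁻¹ ∈ repZ.range :=
  (Subgroup.mem_normalizer_iff.1 (Subgroup.zpow_mem _ T_norm j) h).1 hh

theorem ST_mem : SZ * TZ ^ (3 : ℤ) ∈ repZ.range := by
  have : SZ * TZ ^ (3 : ℤ) = AZ * BZ⁻¹ := c5
  rw [this]
  exact mul_mem AZ_mem (inv_mem BZ_mem)

theorem T12_mem : TZ ^ (12 : ℤ) ∈ repZ.range := by
  have : TZ ^ (12 : ℤ) = AZ⁻¹ * BZ * AZ * BZ⁻¹ * AZ⁻¹ * BZ * AZ * BZ⁻¹ := c6
  rw [this]
  have a := AZ_mem
  have b := BZ_mem
  exact mul_mem (mul_mem (mul_mem (mul_mem (mul_mem (mul_mem (mul_mem (inv_mem a) b) a)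
    (inv_mem b)) (inv_mem a)) b) a) (inv_mem b)

theorem cover (x : SL(2, ℤ)) : ∃ j : ℤ, x * TZ ^ j ∈ repZ.range := by
  have hx : x ∈ Subgroup.closure ({SZ, TZ} : Set SL(2, ℤ)) := by rw [gens]; trivial
  induction hx using Subgroup.closure_induction_right with
  | one => exact ⟨0, by simp⟩
  | mul_right x _ y hy ih =>
    obtain ⟨j, hj⟩ := ih
    rcases hy with rfl | rfl
    · -- x S
      refine ⟨j + 3, ?_⟩
      have h1 := conj_zpow (-j) ST_mem
      have h2 := mul_mem hj h1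
      convert h2 using 1
      group
    · refine ⟨j - 1, ?_⟩
      convert hj using 1
      group
  | mul_inv_cancel x _ y hy ih =>
    obtain ⟨j, hj⟩ := ih
    rcases hy with rfl | rfl
    · refine ⟨j - 3, ?_⟩
      have h1 := conj_zpow (-j + 3) (inv_mem ST_mem)
      have h2 := mul_mem hj h1
      convert h2 using 1
      group
    · refine ⟨j + 1, ?_⟩
      convert hj using 1
      group

theorem repZ_finiteIndex : repZ.range.FiniteIndex := by
  have hfin : Finite (SL(2, ℤ) ⧸ repZ.range) := by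
    apply Finite.of_surjective (fun i : Fin 12 => (QuotientGroup.mk (TZ ^ (i.1 : ℤ)) :
      SL(2, ℤ) ⧸ repZ.range))
    intro y
    induction y using QuotientGroup.induction_on with
    | H x =>
      obtain ⟨j, hj⟩ := cover x⁻¹
      refine ⟨⟨(j % 12).toNat, by omega⟩, ?_⟩
      rw [QuotientGroup.eq]
      have e : ((j % 12).toNat : ℤ) = j - 12 * (j / 12) := by omega
      simp only [e]
      have h1 : TZ ^ (12 * (j / 12)) ∈ repZ.range := by
        rw [zpow_mul]; exact Subgroup.zpow_mem _ T12_mem _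
      have h2 := mul_mem h1 (inv_mem hj)
      convert h2 using 1
      group
  exact Subgroup.finiteIndex_of_finite_quotient

open Pool.Agent.Run7.h775.OneSys in
/-- the conjugating matrix -/
def Mr : Matrix (Fin 2) (Fin 2) ℝ := !![1, -ph; ph, 1]

open Pool.Agent.Run7.h775.OneSys in
theorem Mr_det : Mr.det ≠ 0 := by
  rw [Mr, Matrix.det_fin_two]
  simp only [Matrix.of_apply, Matrix.cons_val', Matrix.cons_val_zero, Matrix.cons_val_one,
    Matrix.cons_val_fin_one]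
  nlinarith [phsq, ph1]

/-- reduction to real matrices -/
def mp (g : SL(2, ℤ)) : Matrix (Fin 2) (Fin 2) ℝ :=
  (g : Matrix (Fin 2) (Fin 2) ℤ).map (fun x : ℤ => (x : ℝ))

theorem mp_mul (g h : SL(2, ℤ)) : mp (g * h) = mp g * mp h := by
  unfold mp
  rw [Matrix.SpecialLinearGroup.coe_mul]
  exact Matrix.map_mul (f := Int.castRingHom ℝ)

theorem mp_one : mp 1 = 1 := by
  unfold mp
  rw [Matrix.SpecialLinearGroup.coe_one]
  exact Matrix.map_one _ Int.cast_zero Int.cast_one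

open Pool.Agent.Run7.h775.OneSys in
theorem rep_Mr (w : FreeGroup Bool) : (rep w : Matrix (Fin 2) (Fin 2) ℝ) * Mr = Mr * mp (repZ w) := by
  have hAB : ∀ b : Bool, (rep (FreeGroup.of b) : Matrix (Fin 2) (Fin 2) ℝ) * Mr =
      Mr * mp (repZ (FreeGroup.of b)) := by
    have h3 := phsq
    intro b
    cases b
    · have e1 : rep (FreeGroup.of false) = Bm := by simp [rep]
      have e2 : repZ (FreeGroup.of false) = BZ := by simp [repZ]
      rw [e1, e2]
      ext i j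
      fin_cases i <;> fin_cases j <;>
        simp [Bm, BZ, Mr, mp, Matrix.mul_apply, Fin.sum_univ_two] <;> nlinarith
    · have e1 : rep (FreeGroup.of true) = Am := by simp [rep]
      have e2 : repZ (FreeGroup.of true) = AZ := by simp [repZ]
      rw [e1, e2]
      ext i j
      fin_cases i <;> fin_cases j <;>
        simp [Am, AZ, Mr, mp, Matrix.mul_apply, Fin.sum_univ_two] <;> nlinarith
  have hinv : ∀ v : FreeGroup Bool, (rep v : Matrix (Fin 2) (Fin 2) ℝ) * Mr = Mr * mp (repZ v) →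
      (rep v⁻¹ : Matrix (Fin 2) (Fin 2) ℝ) * Mr = Mr * mp (repZ v⁻¹) := by
    intro v hv
    have h1 : (rep v⁻¹ : Matrix (Fin 2) (Fin 2) ℝ) * (rep v : Matrix (Fin 2) (Fin 2) ℝ) = 1 := by
      rw [← Matrix.SpecialLinearGroup.coe_mul, ← map_mul, inv_mul_cancel, map_one,
        Matrix.SpecialLinearGroup.coe_one]
    have h2 : mp (repZ v) * mp (repZ v⁻¹) = 1 := by
      rw [← mp_mul, ← map_mul, mul_inv_cancel, map_one, mp_one]
    calc (rep v⁻¹ : Matrix (Fin 2) (Fin 2) ℝ) * Mr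
        = (rep v⁻¹ : Matrix (Fin 2) (Fin 2) ℝ) * (Mr * (mp (repZ v) * mp (repZ v⁻¹))) := by
          rw [h2, mul_one]
      _ = (rep v⁻¹ : Matrix (Fin 2) (Fin 2) ℝ) * ((Mr * mp (repZ v)) * mp (repZ v⁻¹)) := by
          rw [mul_assoc]
      _ = ((rep v⁻¹ : Matrix (Fin 2) (Fin 2) ℝ) * (rep v : Matrix (Fin 2) (Fin 2) ℝ)) * Mr *
            mp (repZ v⁻¹) := by
          rw [← hv]; simp only [mul_assoc]
      _ = Mr * mp (repZ v⁻¹) := by rw [h1, one_mul]
  induction w using FreeGroup.induction_on with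
  | C1 => rw [map_one, map_one, mp_one, Matrix.SpecialLinearGroup.coe_one, one_mul, mul_one]
  | of b => exact hAB b
  | inv_of b _ => exact hinv _ (hAB b)
  | mul x y hx hy =>
    rw [map_mul, map_mul, mp_mul, Matrix.SpecialLinearGroup.coe_mul, mul_assoc, hy, ← mul_assoc,
      hx, mul_assoc]

open Pool.Agent.Run7.h775.OneSys in
theorem conj_rep : ∃ M : GL (Fin 2) ℝ, ∀ w : FreeGroup Bool,
    (rep w : Matrix (Fin 2) (Fin 2) ℝ) =
      (M : Matrix (Fin 2) (Fin 2) ℝ) * ((repZ w : Matrix (Fin 2) (Fin 2) ℤ).map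
        (fun x : ℤ => (x : ℝ))) * ((M⁻¹ : GL (Fin 2) ℝ) : Matrix (Fin 2) (Fin 2) ℝ) := by
  refine ⟨Matrix.GeneralLinearGroup.mkOfDetNeZero Mr Mr_det, fun w => ?_⟩
  set M := Matrix.GeneralLinearGroup.mkOfDetNeZero Mr Mr_det with hM
  have hM' : (M : Matrix (Fin 2) (Fin 2) ℝ) = Mr := rfl
  have h := rep_Mr w
  have h2 : (M : Matrix (Fin 2) (Fin 2) ℝ) * ((M⁻¹ : GL (Fin 2) ℝ) : Matrix (Fin 2) (Fin 2) ℝ) = 1 :=
    Units.mul_inv M
  calc (rep w : Matrix (Fin 2) (Fin 2) ℝ)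
      = (rep w : Matrix (Fin 2) (Fin 2) ℝ) * ((M : Matrix (Fin 2) (Fin 2) ℝ) *
          ((M⁻¹ : GL (Fin 2) ℝ) : Matrix (Fin 2) (Fin 2) ℝ)) := by rw [h2, mul_one]
    _ = _ := by rw [← mul_assoc, hM', h]; rfl

end

end Pool.Agent.Run7.h992.OneSys
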